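import Pool.Agent.Q29.AB.Stm2

/-!
# AB-ELO, AB-LOW, AB-HAL
-/

set_option autoImplicit false

open Finset Real
open scoped Classical

namespace Pool.Agent.Q178.AB

open Pool.Agent.Q29.AB

/-- the set with the signs of the weights removed -/
noncomputable def XU {ι : Type} (S : Finset ι) (M : ι → ℤ) (U : Finset ι) : Finset ι :=
  S.filter fun i => (i ∈ U ↔ 0 < M i)

lemma sum_XU {ι : Type} (S : Finset ι) (M : ι → ℤ) (hM : ∀ i ∈ S, M i ≠ 0) (U : Finset ι) (hU : U ⊆ S) :
    ∑ i ∈ XU S M U, |M i| = ∑ i ∈ U, M i + ∑ i ∈ S, (if M i < 0 then |M i| else 0) := by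
  unfold XU
  have h1 : ∑ i ∈ U, M i = ∑ i ∈ S, (if i ∈ U then M i else 0) := by
    rw [Finset.sum_ite_mem, Finset.inter_eq_right.mpr hU]
  rw [Finset.sum_filter, h1, ← Finset.sum_add_distrib]
  refine Finset.sum_congr rfl fun i hi => ?_
  rcases lt_or_gt_of_ne (hM i hi) with h | h
  · have h2 : ¬ (0 < M i) := not_lt.mpr h.le
    by_cases hiU : i ∈ U
    · simp only [hiU, h, h2, true_iff, if_true, if_false, abs_of_neg h]
      ring
    · simp only [hiU, h, h2, if_true, if_false]
      simp
  · have h2 : ¬ (M i < 0) := not_lt.mpr h.le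
    by_cases hiU : i ∈ U
    · simp only [hiU, h, h2, if_true, if_false, abs_of_pos h]
      ring
    · simp only [hiU, h, h2, if_false, false_iff, not_true_eq_false]
      simp

lemma XU_inj {ι : Type} (S : Finset ι) (M : ι → ℤ) {U U' : Finset ι} (hU : U ⊆ S) (hU' : U' ⊆ S)
    (h : XU S M U = XU S M U') : U = U' := by
  ext i
  by_cases hi : i ∈ S
  · have h1 : i ∈ XU S M U ↔ i ∈ XU S M U' := by rw [h]
    unfold XU at h1
    rw [mem_filter, mem_filter] at h1
    tauto
  · exact ⟨fun h => absurd (hU h) hi, fun h => absurd (hU' h) hi⟩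

theorem t_ELO : S_ELO := by
  intro ι S M a hM
  set F := S.powerset.filter fun U => ∑ i ∈ U, M i = a with hF
  have hsub : ∀ U, XU S M U ⊆ S := fun U => filter_subset _ _
  set 𝒜 : Finset (Finset S) := F.image fun U => (XU S M U).subtype (fun x => x ∈ S) with hA
  have hinj : Set.InjOn (fun U => (XU S M U).subtype (fun x => x ∈ S)) (F : Set (Finset ι)) := by
    intro U hU U' hU' h
    rw [mem_coe, hF, mem_filter, mem_powerset] at hU hU'
    apply XU_inj S M hU.1 hU'.1
    ext i
    by_cases hi : i ∈ S
    · have h1 : (⟨i, hi⟩ : S) ∈ (XU S M U).subtype (fun x => x ∈ S) ↔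
          (⟨i, hi⟩ : S) ∈ (XU S M U').subtype (fun x => x ∈ S) := by
        simp only at h
        rw [h]
      rw [mem_subtype, mem_subtype] at h1
      exact h1
    · exact ⟨fun h => absurd (hsub _ h) hi, fun h => absurd (hsub _ h) hi⟩
  have hcard : 𝒜.card = F.card := card_image_of_injOn hinj
  have hanti : IsAntichain (· ⊆ ·) (SetLike.coe 𝒜) := by
    intro X hX Y hY hne hXY
    rw [mem_coe, hA, mem_image] at hX hY
    obtain ⟨U, hU, rfl⟩ := hX
    obtain ⟨U', hU', rfl⟩ := hY
    rw [hF, mem_filter, mem_powerset] at hU hU'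
    apply hne
    have hsub2 : XU S M U ⊆ XU S M U' := by
      intro i hi
      have hiS := hsub _ hi
      have h1 : (⟨i, hiS⟩ : S) ∈ (XU S M U).subtype (fun x => x ∈ S) := by
        rw [mem_subtype]; exact hi
      have h2 := hXY h1
      rw [mem_subtype] at h2
      exact h2
    have h3 := sum_XU S M hM U hU.1
    have h4 := sum_XU S M hM U' hU'.1
    rw [hU.2] at h3
    rw [hU'.2] at h4
    have h5 : ∑ i ∈ XU S M U' \ XU S M U, |M i| = 0 := by
      have := Finset.sum_sdiff (f := fun i => |M i|) hsub2
      linarith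
    have h6 : XU S M U' \ XU S M U = ∅ := by
      rw [Finset.eq_empty_iff_forall_notMem]
      intro i hi
      have h7 := (Finset.sum_eq_zero_iff_of_nonneg (fun i _ => abs_nonneg (M i))).mp h5 i hi
      rw [abs_eq_zero] at h7
      rw [mem_sdiff] at hi
      exact hM i (hsub _ hi.1) h7
    have h7 : XU S M U = XU S M U' := by
      apply Finset.Subset.antisymm hsub2
      rwa [Finset.sdiff_eq_empty_iff_subset] at h6
    rw [h7]
  have h8 := hanti.sperner
  rw [hcard, Fintype.card_coe] at h8
  exact h8

lemma sum_splitW {ι V : Type} [AddCommGroup V] [Module ℚ V] {T : Finset ι} {f : ι → V} {M : ι → ℤ}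
    {d : ℕ} {S : Fin d → Finset ι} {v : Fin d → V}
    (hdis : ∀ i j, i ≠ j → Disjoint (S i) (S j)) (hf : ∀ j, ∀ i ∈ S j, f i = M i • v j)
    {U : Finset ι} (hU : U ⊆ T) :
    ∑ i ∈ U, f i = ∑ i ∈ U ∩ (T \ univ.biUnion S), f i +
      ∑ j, ((∑ i ∈ U ∩ S j, M i : ℤ) : ℚ) • v j := by
  have h1 : U = (U ∩ (T \ univ.biUnion S)) ∪ univ.biUnion (fun j => U ∩ S j) := by
    ext x
    simp only [mem_union, mem_inter, mem_sdiff, mem_biUnion, mem_univ, true_and]
    constructor
    · intro hx
      by_cases h : ∃ j, x ∈ S j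
      · right
        obtain ⟨j, hj⟩ := h
        exact ⟨j, hx, hj⟩
      · left
        exact ⟨hx, hU hx, h⟩
    · rintro (h | ⟨j, h⟩)
      · exact h.1
      · exact h.1
  have h2 : Disjoint (U ∩ (T \ univ.biUnion S)) (univ.biUnion (fun j => U ∩ S j)) := by
    rw [Finset.disjoint_left]
    intro x hx hx'
    simp only [mem_inter, mem_sdiff, mem_biUnion, mem_univ, true_and] at hx hx'
    obtain ⟨j, -, hj⟩ := hx'
    exact hx.2.2 ⟨j, hj⟩
  conv_lhs => rw [h1]
  rw [sum_union h2, sum_biUnion]
  · congr 1
    refine sum_congr rfl fun j _ => ?_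
    rw [sum_congr rfl fun i hi => hf j i (mem_inter.mp hi).2, ← Finset.sum_smul]
    rw [Int.cast_smul_eq_zsmul]
  · intro i _ j _ hij
    exact (hdis i j hij).mono inter_subset_right inter_subset_right

theorem t_LOW : S_LOW := by
  intro hELO ι V _ _ T f M d k S v w hST hdis hcard hv hM hf
  set R := T \ univ.biUnion S with hR
  set F := T.powerset.filter fun U => ∑ i ∈ U, f i = w with hF
  have hTc : T.card = R.card + k * d := by
    have h1 : univ.biUnion S ⊆ T := by
      intro x hx
      rw [mem_biUnion] at hx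
      obtain ⟨j, -, hj⟩ := hx
      exact hST j hj
    have h2 : (univ.biUnion S).card = k * d := by
      rw [card_biUnion (fun i _ j _ hij => hdis i j hij)]
      simp only [hcard, sum_const, card_univ, Fintype.card_fin, smul_eq_mul]
      ring
    have h3 := card_sdiff_add_card_eq_card h1
    rw [h2] at h3
    exact h3.symm
  have hfib : ∀ A ∈ R.powerset, (F.filter fun U => U ∩ R = A).card ≤ (k.choose (k / 2)) ^ d := by
    intro A _
    by_cases hne : (F.filter fun U => U ∩ R = A).Nonempty
    · obtain ⟨U0, hU0⟩ := hne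
      rw [mem_filter, hF, mem_filter, mem_powerset] at hU0
      obtain ⟨⟨hU0T, hU0s⟩, hU0R⟩ := hU0
      have hcount : ∀ U ∈ (F.filter fun U => U ∩ R = A), ∀ j,
          ∑ i ∈ U ∩ S j, M i = ∑ i ∈ U0 ∩ S j, M i := by
        intro U hU
        rw [mem_filter, hF, mem_filter, mem_powerset] at hU
        obtain ⟨⟨hUT, hUs⟩, hUR⟩ := hU
        have e1 := sum_splitW (T := T) hdis hf hUT
        have e2 := sum_splitW (T := T) hdis hf hU0T
        rw [hUs] at e1
        rw [hU0s] at e2
        rw [← hR, hUR] at e1
        rw [← hR, hU0R] at e2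
        have e3 : ∑ j, (((∑ i ∈ U ∩ S j, M i : ℤ) : ℚ) - ((∑ i ∈ U0 ∩ S j, M i : ℤ) : ℚ)) • v j = 0 := by
          simp only [sub_smul, sum_sub_distrib]
          have := e1.symm.trans e2
          rw [add_right_inj] at this
          rw [this, sub_self]
        intro j
        have e4 := Fintype.linearIndependent_iff.mp hv _ e3 j
        rw [sub_eq_zero] at e4
        exact_mod_cast e4
      have hinj : (F.filter fun U => U ∩ R = A).card ≤
          (Fintype.piFinset fun j => (S j).powerset.filter
            fun W => ∑ i ∈ W, M i = ∑ i ∈ U0 ∩ S j, M i).card := by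
        refine card_le_card_of_injOn (fun U j => U ∩ S j) ?_ ?_
        · intro U hU
          rw [mem_coe, Fintype.mem_piFinset]
          intro j
          rw [mem_filter, mem_powerset]
          exact ⟨inter_subset_right, hcount U hU j⟩
        · intro U hU U' hU' heq
          rw [mem_coe, mem_filter, hF, mem_filter, mem_powerset] at hU hU'
          obtain ⟨⟨hUT, -⟩, hUR⟩ := hU
          obtain ⟨⟨hUT', -⟩, hUR'⟩ := hU'
          have hj : ∀ j, U ∩ S j = U' ∩ S j := fun j => congrFun heq j
          ext x
          by_cases hx : ∃ j, x ∈ S j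
          · obtain ⟨j, hxj⟩ := hx
            have := congrArg (fun Z => x ∈ Z) (hj j)
            simp only [mem_inter, hxj, and_true, eq_iff_iff] at this
            exact this
          · by_cases hxT : x ∈ T
            · have hxR : x ∈ R := by
                rw [hR, mem_sdiff, mem_biUnion]
                refine ⟨hxT, ?_⟩
                rintro ⟨j, -, hj⟩
                exact hx ⟨j, hj⟩
              have := congrArg (fun Z => x ∈ Z) (hUR.trans hUR'.symm)
              simp only [mem_inter, hxR, and_true, eq_iff_iff] at this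
              exact this
            · exact ⟨fun h => absurd (hUT h) hxT, fun h => absurd (hUT' h) hxT⟩
      refine hinj.trans ?_
      rw [Fintype.card_piFinset]
      calc ∏ j : Fin d, ((S j).powerset.filter fun W => ∑ i ∈ W, M i = ∑ i ∈ U0 ∩ S j, M i).card ≤
          ∏ _j : Fin d, k.choose (k / 2) :=
            prod_le_prod' fun j _ => by
              have := hELO ι (S j) M (∑ i ∈ U0 ∩ S j, M i) (fun i _ => hM i)
              rw [hcard] at this
              exact this
        _ = (k.choose (k / 2)) ^ d := by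
            rw [prod_const, card_univ, Fintype.card_fin]
    · rw [not_nonempty_iff_eq_empty] at hne
      rw [hne, card_empty]
      exact Nat.zero_le _
  have hFc : F.card ≤ 2 ^ R.card * (k.choose (k / 2)) ^ d := by
    have h1 : F.card = ∑ A ∈ R.powerset, (F.filter fun U => U ∩ R = A).card :=
      card_eq_sum_card_fiberwise fun U _ => by
        rw [mem_coe, mem_powerset]
        exact inter_subset_right
    rw [h1]
    refine (sum_le_sum hfib).trans ?_
    rw [sum_const, card_powerset, smul_eq_mul]
  have h2 : ((F.card : ℕ) : ℝ) ≤ 2 ^ R.card * (k.choose (k / 2) : ℝ) ^ d := by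
    exact_mod_cast hFc
  refine h2.trans (le_of_eq ?_)
  unfold rho
  rw [hTc, div_pow, pow_add, ← pow_mul]
  have h3 : (2 : ℝ) ^ (k * d) ≠ 0 := by positivity
  field_simp

/-! ### HAL -/

lemma sg_toggle {ι : Type} (S : Finset ι) (M : ι → ℤ) (U : Finset ι) (p : ι) (hp : p ∈ S) :
    sg S M (symmDiff U {p}) = sg S M U - 2 * (M p * (if p ∈ U then 1 else -1)) := by
  unfold sg
  have h1 : ∀ i ∈ S, M i * (if i ∈ symmDiff U {p} then (1 : ℤ) else -1) =
      M i * (if i ∈ U then 1 else -1) - (if i = p then 2 * (M p * (if p ∈ U then 1 else -1)) else 0) := by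
    intro i _
    by_cases hip : i = p
    · subst hip
      by_cases hiU : i ∈ U
      · have h2 : i ∉ symmDiff U {i} := by
          rw [mem_symmDiff]; simp [hiU]
        simp only [h2, hiU, if_true, if_false]
        ring
      · have h2 : i ∈ symmDiff U {i} := by
          rw [mem_symmDiff]; simp [hiU]
        simp only [h2, hiU, if_true, if_false]
        ring
    · have h2 : i ∈ symmDiff U {p} ↔ i ∈ U := by
        rw [mem_symmDiff, mem_singleton]; tauto
      simp only [h2, hip, if_false, sub_zero]
  rw [Finset.sum_congr rfl h1, Finset.sum_sub_distrib, Finset.sum_ite_eq' S p, if_pos hp]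

/-- where the two sets agree -/
noncomputable def DD {ι : Type} (S : Finset ι) (u : Finset ι × Finset ι) : Finset ι :=
  S.filter fun j => (j ∈ u.1 ↔ j ∈ u.2)

lemma DD_toggle {ι : Type} (S : Finset ι) (u : Finset ι × Finset ι) (p : ι) :
    DD S (symmDiff u.1 {p}, symmDiff u.2 {p}) = DD S u := by
  unfold DD
  refine Finset.filter_congr fun j _ => ?_
  simp only [mem_symmDiff, mem_singleton]
  tauto

theorem t_HAL : S_HAL := by
  intro ι S M _ hodd
  set B := (S.powerset ×ˢ S.powerset).filter fun u => sg S M u.1 = sg S M u.2 with hB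
  set A := (S.powerset ×ˢ S.powerset).filter fun u => sg S M u.1 = sg S M u.2 ∧ sg S M u.1 % 4 = 2 with hA
  have hAB : A = B.filter fun u => sg S M u.1 % 4 = 2 := by
    rw [hA, hB, Finset.filter_filter]
  -- the common elements
  have hne : ∀ u ∈ A, (DD S u).Nonempty := by
    intro u hu
    rw [hA, mem_filter, mem_product, mem_powerset, mem_powerset] at hu
    by_contra hcon
    rw [Finset.not_nonempty_iff_eq_empty, Finset.eq_empty_iff_forall_notMem] at hcon
    have h1 : sg S M u.2 = - sg S M u.1 := by
      unfold sg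
      rw [← Finset.sum_neg_distrib]
      refine Finset.sum_congr rfl fun i hi => ?_
      have h2 := hcon i
      unfold DD at h2
      rw [mem_filter] at h2
      by_cases h3 : i ∈ u.1
      · have h4 : i ∉ u.2 := by tauto
        simp [h3, h4]
      · have h4 : i ∈ u.2 := by tauto
        simp [h3, h4]
    have h5 := hu.2.1
    have h6 := hu.2.2
    omega
  set φ : Finset ι × Finset ι → Finset ι × Finset ι := fun u =>
    if h : (DD S u).Nonempty then (symmDiff u.1 {h.choose}, symmDiff u.2 {h.choose}) else u with hφ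
  have hmap : ∀ u ∈ A, φ u ∈ B.filter fun u => ¬ (sg S M u.1 % 4 = 2) := by
    intro u hu
    have h := hne u hu
    rw [hA, mem_filter, mem_product, mem_powerset, mem_powerset] at hu
    have h1 : φ u = (symmDiff u.1 {h.choose}, symmDiff u.2 {h.choose}) := by
      simp only [hφ]
      rw [dif_pos h]
    have h2 := h.choose_spec
    set p := h.choose with hp
    have h3 : p ∈ S ∧ (p ∈ u.1 ↔ p ∈ u.2) := by
      unfold DD at h2
      rw [mem_filter] at h2
      exact h2
    rw [h1, mem_filter, hB, mem_filter, mem_product, mem_powerset, mem_powerset]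
    simp only
    rw [sg_toggle S M u.1 p h3.1, sg_toggle S M u.2 p h3.1]
    have hsd : ∀ W : Finset ι, W ⊆ S → symmDiff W {p} ⊆ S := by
      intro W hW x hx
      rw [mem_symmDiff, mem_singleton] at hx
      rcases hx with hx | hx
      · exact hW hx.1
      · rw [hx.1]; exact h3.1
    refine ⟨⟨⟨hsd _ hu.1.1, hsd _ hu.1.2⟩, ?_⟩, ?_⟩
    · rw [hu.2.1]
      simp only [h3.2]
    · obtain ⟨m, hm⟩ := hodd p h3.1
      have h4 := hu.2.2
      rw [hm]
      split_ifs <;> omega
  have hinj : Set.InjOn φ (A : Set (Finset ι × Finset ι)) := by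
    intro u hu u' hu' he
    rw [mem_coe] at hu hu'
    have h := hne u hu
    have h' := hne u' hu'
    have h1 : φ u = (symmDiff u.1 {h.choose}, symmDiff u.2 {h.choose}) := by
      simp only [hφ]
      rw [dif_pos h]
    have h1' : φ u' = (symmDiff u'.1 {h'.choose}, symmDiff u'.2 {h'.choose}) := by
      simp only [hφ]
      rw [dif_pos h']
    have h2 : DD S u = DD S u' := by
      rw [← DD_toggle S u h.choose, ← DD_toggle S u' h'.choose, ← h1, ← h1', he]
    have h3 : h.choose = h'.choose := by
      congr 1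
      simp only [h2]
    rw [h1, h1', h3] at he
    have h4 := congrArg Prod.fst he
    have h5 := congrArg Prod.snd he
    simp only at h4 h5
    exact Prod.ext (symmDiff_left_injective _ h4) (symmDiff_left_injective _ h5)
  have hle : A.card ≤ (B.filter fun u => ¬ (sg S M u.1 % 4 = 2)).card :=
    card_le_card_of_injOn φ (fun u hu => hmap u hu) hinj
  have htot := Finset.card_filter_add_card_filter_not (s := B) (fun u => sg S M u.1 % 4 = 2)
  rw [← hAB] at htot
  omega

end Pool.Agent.Q178.AB
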